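import Pool.Agent.H295R3.D6.Stmts

/-! Parity lemmas for project H295-D6: tasks C1, C2, C5, J. -/

set_option autoImplicit false

open Finset Filter

namespace Pool.Agent.H295R3.D6

theorem blk_ne_zero (a b : ℕ) : blk a b ≠ 0 := by
  unfold blk
  rw [Finset.prod_ne_zero_iff]
  intro n hn
  rw [Finset.mem_Ioc] at hn
  omega

theorem rel_even {m b₂ b₃ b₄ B : ℕ} (h : Rel m b₂ b₃ b₄ B) (q : ℕ) :
    Even ((blk b₂ m).factorization q + (blk b₄ b₃).factorization q + (B.factorial).factorization q) := by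
  obtain ⟨_, _, _, _, r, hr⟩ := h
  have h1 : r ≠ 0 := by
    rintro rfl
    have : blk b₂ m * blk b₄ b₃ * B.factorial ≠ 0 :=
      mul_ne_zero (mul_ne_zero (blk_ne_zero _ _) (blk_ne_zero _ _)) (Nat.factorial_ne_zero _)
    exact this (by simpa using hr)
  have h2 := congrArg (fun x => x.factorization q) hr
  simp only [Nat.factorization_mul (mul_ne_zero (blk_ne_zero b₂ m) (blk_ne_zero b₄ b₃)) (Nat.factorial_ne_zero B),
    Nat.factorization_mul (blk_ne_zero b₂ m) (blk_ne_zero b₄ b₃), Nat.factorization_mul h1 h1,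
    Finsupp.add_apply] at h2
  rw [h2]
  exact ⟨_, rfl⟩

theorem dvd_blk {q a b : ℕ} (hq : q.Prime) (h : q ∣ blk a b) : ∃ n ∈ Ioc a b, q ∣ n := by
  unfold blk at h
  exact (Prime.dvd_finsetProd_iff hq.prime _).1 h

theorem blk_fact_single {q a b n : ℕ} (hn : n ∈ Ioc a b)
    (hq : b - a < q) (hd : q ∣ n) : (blk a b).factorization q = n.factorization q := by
  unfold blk
  rw [← Finset.mul_prod_erase _ _ hn]
  have h0 : n ≠ 0 := by
    rw [Finset.mem_Ioc] at hn
    omega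
  have h1 : (∏ x ∈ (Ioc a b).erase n, x) ≠ 0 := by
    rw [Finset.prod_ne_zero_iff]
    intro x hx
    rw [Finset.mem_erase, Finset.mem_Ioc] at hx
    omega
  rw [Nat.factorization_mul h0 h1, Finsupp.add_apply]
  have h2 : (∏ x ∈ (Ioc a b).erase n, x).factorization q = 0 := by
    by_cases hp : q.Prime
    · apply Nat.factorization_eq_zero_of_not_dvd
      intro hdv
      obtain ⟨x, hx, hxd⟩ := (Prime.dvd_finsetProd_iff hp.prime _).1 hdv
      rw [Finset.mem_erase, Finset.mem_Ioc] at hx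
      rw [Finset.mem_Ioc] at hn
      obtain ⟨u, hu⟩ := hd
      obtain ⟨v, hv⟩ := hxd
      rcases lt_trichotomy x n with h | h | h
      · have h3 : q ∣ n - x := Nat.dvd_sub ⟨u, hu⟩ ⟨v, hv⟩
        have h4 := Nat.le_of_dvd (by omega) h3
        omega
      · exact hx.1 h
      · have h3 : q ∣ x - n := Nat.dvd_sub ⟨v, hv⟩ ⟨u, hu⟩
        have h4 := Nat.le_of_dvd (by omega) h3
        omega
    · exact Nat.factorization_eq_zero_of_not_prime _ hp
  omega

theorem fact_zero {q B : ℕ} (h : B < q) : (B.factorial).factorization q = 0 := by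
  by_cases hp : q.Prime
  · apply Nat.factorization_eq_zero_of_not_dvd
    intro hd
    have := (hp.dvd_factorial).1 hd
    omega
  · exact Nat.factorization_eq_zero_of_not_prime _ hp

theorem fact_one {q B : ℕ} (hp : q.Prime) (h : B < 2 * q) (h' : q ≤ B) :
    (B.factorial).factorization q = 1 := by
  have h2 := hp.two_le
  have h3 : Nat.log q B < 2 := by
    apply Nat.log_lt_of_lt_pow (by omega)
    nlinarith
  rw [Nat.factorization_factorial hp h3]
  rw [show Ico 1 2 = {1} from rfl, Finset.sum_singleton, pow_one]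
  exact (Nat.div_eq_iff (by omega)).2 (by omega)

theorem taskC5 : TaskC5 := by
  intro m b₂ b₃ b₄ B hR q hq hB hqB
  have h1 := rel_even hR q
  rw [fact_one hq hB hqB] at h1
  by_contra hcon
  push Not at hcon
  obtain ⟨hc1, hc2⟩ := hcon
  have e1 : (blk b₂ m).factorization q = 0 := by
    apply Nat.factorization_eq_zero_of_not_dvd
    intro hd
    obtain ⟨n, hn, hnd⟩ := dvd_blk hq hd
    rw [Finset.mem_Ioc] at hn
    apply hc1 (m - n) (by omega)
    rw [show m - (m - n) = n by omega]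
    exact hnd
  have e2 : (blk b₄ b₃).factorization q = 0 := by
    apply Nat.factorization_eq_zero_of_not_dvd
    intro hd
    obtain ⟨n, hn, hnd⟩ := dvd_blk hq hd
    rw [Finset.mem_Ioc] at hn
    exact hc2 n hn.1 hn.2 hnd
  rw [e1, e2] at h1
  revert h1
  decide

theorem dvd_of_odd {q n : ℕ} (h : Odd (n.factorization q)) : q ∣ n := by
  apply Nat.dvd_of_factorization_pos
  rintro h0
  rw [h0] at h
  exact absurd h (by decide)

theorem taskC2 : TaskC2 := by
  intro m b₂ b₃ b₄ B hR n hn q hq hB hL hodd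
  have h1 := rel_even hR q
  rw [fact_zero hB] at h1
  have hd : q ∣ n := dvd_of_odd hodd
  rw [blk_fact_single hn (lt_of_le_of_lt (le_max_right _ _) hL) hd] at h1
  apply dvd_of_odd
  rw [← Nat.not_even_iff_odd]
  intro he
  rw [← Nat.not_even_iff_odd] at hodd
  apply hodd
  rw [add_zero, Nat.even_add] at h1
  exact h1.1 he

theorem taskC1 : TaskC1 := by
  intro m k p j b₂ b₃ b₄ B hR hm hj1 hjk hj2 hj3 x hx hnd q hq hB hL
  rw [← Nat.not_odd_iff_even]
  intro hodd
  have hb := hR.2.2.2.1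
  have hd : q ∣ m - x := dvd_of_odd hodd
  have hkpos : 1 ≤ k := by omega
  have hL1 : m - b₂ < q := by
    have : max (m - b₂) (b₃ - b₄) ≤ 2 * k * max (m - b₂) (b₃ - b₄) := Nat.le_mul_of_pos_left _ (by omega)
    have h2 := le_max_left (m - b₂) (b₃ - b₄)
    omega
  have hmem : m - x ∈ Ioc b₂ m := by
    rw [Finset.mem_Ioc]; omega
  have h1 := rel_even hR q
  rw [fact_zero hB, blk_fact_single hmem hL1 hd] at h1
  have h2 : Odd ((blk b₄ b₃).factorization q) := by
    rw [← Nat.not_even_iff_odd]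
    intro he
    rw [← Nat.not_even_iff_odd] at hodd
    apply hodd
    rw [add_zero, Nat.even_add] at h1
    exact h1.2 he
  obtain ⟨n, hn, hnd2⟩ := dvd_blk hq (dvd_of_odd h2)
  rw [Finset.mem_Ioc] at hn
  have hxm : x ≤ m := by omega
  have key : (q : ℤ) ∣ (k : ℤ) * ((j : ℤ) * p - n) - j * x := by
    have a1 : (q : ℤ) ∣ ((m - x : ℕ) : ℤ) := by exact_mod_cast hd
    have a2 : (q : ℤ) ∣ (n : ℤ) := by exact_mod_cast hnd2
    have a3 : (k : ℤ) * ((j : ℤ) * p - n) - j * x = j * ((m - x : ℕ) : ℤ) - k * n := by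
      rw [Nat.cast_sub hxm, hm]
      push_cast
      ring
    rw [a3]
    exact dvd_sub (Dvd.dvd.mul_left a1 _) (Dvd.dvd.mul_left a2 _)
  set L := max (m - b₂) (b₃ - b₄) with hLdef
  have hL1' : m - b₂ ≤ L := le_max_left _ _
  have hL2' : b₃ - b₄ ≤ L := le_max_right _ _
  have hx' : (x : ℤ) < L := by exact_mod_cast lt_of_lt_of_le hx hL1'
  have hjp1 : (j : ℤ) * p - n < L := by
    have : j * p < n + L := by omega
    have : ((j * p : ℕ) : ℤ) < ((n + L : ℕ) : ℤ) := by exact_mod_cast this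
    push_cast at this
    linarith
  have hjp2 : -(L : ℤ) < (j : ℤ) * p - n := by
    have : n < j * p + L := by omega
    have : ((n : ℕ) : ℤ) < ((j * p + L : ℕ) : ℤ) := by exact_mod_cast this
    push_cast at this
    linarith
  have hk' : (1 : ℤ) ≤ k := by exact_mod_cast hkpos
  have hj' : (1 : ℤ) ≤ j := by exact_mod_cast hj1
  have hjk' : (j : ℤ) < k := by exact_mod_cast hjk
  have hq' : 2 * (k : ℤ) * L < q := by exact_mod_cast hL
  have hx0 : (0 : ℤ) ≤ x := Int.natCast_nonneg _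
  have hb1 : (k : ℤ) * ((j : ℤ) * p - n) - j * x < q := by
    have : (k : ℤ) * ((j : ℤ) * p - n) < k * L := by
      apply mul_lt_mul_of_pos_left hjp1; linarith
    nlinarith
  have hb2 : -(q : ℤ) < (k : ℤ) * ((j : ℤ) * p - n) - j * x := by
    have e1 : (k : ℤ) * (-(L : ℤ)) < k * ((j : ℤ) * p - n) := by
      apply mul_lt_mul_of_pos_left hjp2; linarith
    have e2 : (j : ℤ) * x ≤ k * L := by nlinarith
    nlinarith
  have hzero : (k : ℤ) * ((j : ℤ) * p - n) - j * x = 0 := by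
    obtain ⟨c, hc⟩ := key
    rw [hc] at hb1 hb2 ⊢
    have hqpos : (0 : ℤ) < q := by exact_mod_cast hq.pos
    have hc1 : c < 1 := by
      by_contra hh
      push Not at hh
      nlinarith
    have hc2 : -1 < c := by
      by_contra hh
      push Not at hh
      nlinarith
    have : c = 0 := by omega
    rw [this, mul_zero]
  have hdv : (k : ℤ) ∣ j * x := ⟨(j : ℤ) * p - n, by linarith⟩
  have hdv' : k ∣ j * x := by exact_mod_cast hdv
  apply hnd
  have hg : 0 < k.gcd j := Nat.gcd_pos_of_pos_left _ (by omega)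
  have hcop : Nat.Coprime (k / k.gcd j) (j / k.gcd j) := Nat.coprime_div_gcd_div_gcd hg
  apply hcop.dvd_of_dvd_mul_left
  have h5 : k.gcd j * (k / k.gcd j) ∣ k.gcd j * (j / k.gcd j * x) := by
    rw [Nat.mul_div_cancel' (Nat.gcd_dvd_left _ _), ← mul_assoc, Nat.mul_div_cancel' (Nat.gcd_dvd_right _ _)]
    exact hdv'
  exact Nat.dvd_of_mul_dvd_mul_left hg h5

/-- for large `N`, `12 N^(1-δ) log N < N^(1-2η)`. -/
theorem ev_log (δ₂ η : ℝ) (_hδ : 0 < δ₂) (hδ1 : δ₂ ≤ 1 / 10) (hη : 0 < η) (hηδ : η ≤ δ₂ / 100) :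
    ∀ᶠ N : ℕ in atTop, 1 ≤ Real.log N ∧ 12 * (N : ℝ) ^ (1 - δ₂) * Real.log N < (N : ℝ) ^ (1 - η) ∧
      2 * (N : ℝ) ^ (2 * η) < N := by
  have h1 : ∀ᶠ N : ℕ in atTop, 1 ≤ Real.log N :=
    (Real.tendsto_log_atTop.comp tendsto_natCast_atTop_atTop).eventually_ge_atTop 1
  have h2 : ∀ᶠ x : ℝ in atTop, |Real.log x| ≤ (1 / 24) * |x ^ (δ₂ - η)| := by
    have := (isLittleO_log_rpow_atTop (r := δ₂ - η) (by linarith)).def (c := 1 / 24) (by norm_num)
    simpa [Real.norm_eq_abs] using this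
  have h3 : ∀ᶠ N : ℕ in atTop, |Real.log (N : ℝ)| ≤ (1 / 24) * |(N : ℝ) ^ (δ₂ - η)| :=
    tendsto_natCast_atTop_atTop.eventually h2
  have h4 : ∀ᶠ N : ℕ in atTop, 2 < (N : ℝ) ^ (η) := by
    have := (tendsto_rpow_atTop hη).comp (tendsto_natCast_atTop_atTop (R := ℝ))
    exact this.eventually_gt_atTop 2
  filter_upwards [h1, h3, h4, eventually_ge_atTop 1] with N a1 a3 a4 a5
  have hN : (1 : ℝ) ≤ (N : ℝ) := by exact_mod_cast a5
  have hN0 : (0 : ℝ) < (N : ℝ) := by linarith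
  refine ⟨a1, ?_, ?_⟩
  · rw [abs_of_nonneg (by linarith), abs_of_nonneg (Real.rpow_nonneg hN0.le _)] at a3
    have e1 : (N : ℝ) ^ (1 - η) = (N : ℝ) ^ (1 - δ₂) * (N : ℝ) ^ (δ₂ - η) := by
      rw [← Real.rpow_add hN0]
      congr 1
      ring
    have e2 : 0 < (N : ℝ) ^ (1 - δ₂) := Real.rpow_pos_of_pos hN0 _
    have e3 : 0 < (N : ℝ) ^ (δ₂ - η) := Real.rpow_pos_of_pos hN0 _
    rw [e1]
    nlinarith [mul_pos e2 e3, mul_le_mul_of_nonneg_left a3 e2.le]
  · have e1 : (N : ℝ) ^ (2 * η) * (N : ℝ) ^ η ≤ N := by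
      rw [← Real.rpow_add hN0]
      calc (N : ℝ) ^ (2 * η + η) ≤ (N : ℝ) ^ (1 : ℝ) := Real.rpow_le_rpow_of_exponent_le hN (by linarith)
        _ = N := Real.rpow_one _
    have e2 : 0 < (N : ℝ) ^ (2 * η) := Real.rpow_pos_of_pos hN0 _
    nlinarith

theorem taskJ : TaskJ := by
  intro δ₂ η hδ hδ1 hη hηδ
  filter_upwards [ev_log δ₂ η hδ hδ1 hη hηδ, eventually_ge_atTop 1] with N hN hN1
  obtain ⟨hlog, hA, hK⟩ := hN
  intro m k p b₂ b₃ b₄ B hR hm hmN hNm hk2 hkN hp h1 h2 hB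
  have hN0 : (0 : ℝ) < (N : ℝ) := by exact_mod_cast hN1
  have hNη : 0 < (N : ℝ) ^ η := Real.rpow_pos_of_pos hN0 _
  have hk0 : (0 : ℝ) < k := by
    have : (2 : ℝ) ≤ k := by exact_mod_cast hk2
    linarith
  have hpp : (N : ℝ) ^ (1 - η) < 2 * p := by
    have e1 : (N : ℝ) < 2 * (k * p) := by
      rw [hm] at hNm
      exact_mod_cast hNm
    have e2 : (N : ℝ) ^ (1 - η) * (N : ℝ) ^ η = N := by
      rw [← Real.rpow_add hN0]
      simp
    have e3 : (k : ℝ) * p ≤ (N : ℝ) ^ η * p := mul_le_mul_of_nonneg_right hkN (Nat.cast_nonneg _)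
    have e4 : (N : ℝ) ^ (1 - η) * (N : ℝ) ^ η < 2 * p * (N : ℝ) ^ η := by
      rw [e2]
      linarith
    exact lt_of_mul_lt_mul_right e4 hNη.le
  have hpow0 : 0 < (N : ℝ) ^ (1 - δ₂) := Real.rpow_pos_of_pos hN0 _
  have hsm : (N : ℝ) ^ (1 - δ₂) < p := by nlinarith
  have hl1 : m - b₂ < p := by exact_mod_cast lt_of_le_of_lt h1 hsm
  have hBp : B < p := by
    have e1 : ((max (m - b₂) (b₃ - b₄) : ℕ) : ℝ) ≤ (N : ℝ) ^ (1 - δ₂) := by
      rw [Nat.cast_max]
      exact max_le h1 h2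
    have e2 : (B : ℝ) < p := by
      have : 6 * ((max (m - b₂) (b₃ - b₄) : ℕ) : ℝ) * Real.log N ≤ 6 * (N : ℝ) ^ (1 - δ₂) * Real.log N := by
        apply mul_le_mul_of_nonneg_right _ (by linarith)
        linarith
      linarith
    exact_mod_cast e2
  have hkp : k < p := by
    have e1 : (N : ℝ) ^ (1 - η) = (N : ℝ) / (N : ℝ) ^ η := by
      rw [Real.rpow_sub hN0, Real.rpow_one]
    have e2 : (N : ℝ) ^ (2 * η) = (N : ℝ) ^ η * (N : ℝ) ^ η := by
      rw [← Real.rpow_add hN0]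
      congr 1
      ring
    have e3 : 2 * (N : ℝ) ^ η < (N : ℝ) ^ (1 - η) := by
      rw [e1, lt_div_iff₀ hNη]
      linarith
    have : (k : ℝ) < p := by linarith
    exact_mod_cast this
  have hb := hR.2.2.2.1
  have hmem : m ∈ Ioc b₂ m := by
    rw [Finset.mem_Ioc]; omega
  have hpm : p ∣ m := ⟨k, by rw [hm, mul_comm]⟩
  have hfac : m.factorization p = 1 := by
    rw [hm, Nat.factorization_mul (by omega) hp.ne_zero, Finsupp.add_apply, hp.factorization_self,
      Nat.factorization_eq_zero_of_not_dvd]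
    intro hd
    exact absurd (Nat.le_of_dvd (by omega) hd) (by omega)
  have hev := rel_even hR p
  rw [fact_zero hBp, blk_fact_single hmem hl1 hpm, hfac] at hev
  have hne : (blk b₄ b₃).factorization p ≠ 0 := by
    intro h0
    rw [h0] at hev
    exact absurd hev (by decide)
  obtain ⟨n, hn, c, hc⟩ := dvd_blk hp (Nat.dvd_of_factorization_pos hne)
  rw [Finset.mem_Ioc] at hn
  have hb3 := hR.2.2.1
  refine ⟨c, ?_, ?_, ?_, ?_⟩
  · rcases Nat.eq_zero_or_pos c with h0 | h0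
    · rw [h0, mul_zero] at hc
      omega
    · exact h0
  · have : p * c < p * k := by
      rw [← hc, mul_comm p k, ← hm]
      omega
    exact lt_of_mul_lt_mul_left this (Nat.zero_le _)
  · rw [mul_comm, ← hc]; exact hn.1
  · rw [mul_comm, ← hc]; exact hn.2

end Pool.Agent.H295R3.D6
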